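import Pool.Agent.Q269.GL.StC
import Pool.Agent.Q53.GJ.CLA

/-!
# Project GL, job CLL: the two-sided law in a cell

Adapted from `Pool/Agent/Q53/GJ/CLA.lean` (helper53).
-/

set_option autoImplicit false
set_option linter.all false

open scoped Classical
open Finset Polynomial

namespace Pool.Agent.Q261.GL

open Pool.Agent.Q269
open Pool.Agent.Q269.GL
open Pool.Agent.Q53.GJ (Kn_congr KM_congr AAs_congr AA_congr MM_congr KM_congr_s Same same_of_ty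
  TT ty card_TT InC same_AA same_KM fA fA_congr fA_iff erT_mono erT_nonneg rt_pow pow_rt SR)
open Pool.Agent.Q269.GR (F2 cf ev Un Eb dl IsRt gg Bt AA MM ts HU HG Herm hv own Irn Dn pr Fr xi Pfam dg
  Ce IsCe sT erT FxR owR A0R tn XA XB sy)
open Pool.Agent.Q269.GJ (W0 lap eqn Kn Sy pai Gen KM KD KF xb xR Eqd sfx smv Hyn eT IsR AdmD GoodA OO tl)
open Pool.Agent.Y164.PS (L sg L_comm)

/-- the values of the laws are in `[0, 1]` -/
theorem lawR_mem (h9 : S_LWU) (h10 : S_LWN) (r : ℕ) (hr : Odd r) (hr1 : 1 < r) (j : ℕ) :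
    0 ≤ lawR r j ∧ lawR r j ≤ 1 := by
  have hcop : Nat.Coprime 2 r := (Nat.coprime_two_left).2 hr
  have hr0 : r ≠ 0 := by omega
  have : NeZero r := ⟨hr0⟩
  have hunit : IsUnit ((2 : ℕ) : ZMod r) := (ZMod.isUnit_iff_coprime 2 r).2 hcop
  have hfin : IsOfFinOrder (2 : ZMod r) := by
    obtain ⟨u, hu⟩ := hunit
    have h1 : IsOfFinOrder u := isOfFinOrder_of_finite u
    have h2 : (u : ZMod r) = 2 := by rw [hu]; norm_num
    rw [← h2]
    exact (Units.isOfFinOrder_val).2 h1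
  have hpos : 0 < orderOf (2 : ZMod r) := hfin.orderOf_pos
  have hne1 : orderOf (2 : ZMod r) ≠ 1 := by
    intro h
    rw [orderOf_eq_one_iff] at h
    have h3 : ((2 : ℕ) : ZMod r) = ((1 : ℕ) : ZMod r) := by push_cast; exact h
    rw [ZMod.natCast_eq_natCast_iff'] at h3
    have h4 : 1 % r = 1 := Nat.mod_eq_of_lt hr1
    rw [h4] at h3
    obtain ⟨c, hc⟩ := hr
    have h5 : 2 % r = 2 := Nat.mod_eq_of_lt (by omega)
    omega
  have h2 : 1 ≤ orderOf (2 : ZMod r) / 2 := by omega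
  have key : ∀ p : ℕ → ℝ, (∀ j, 0 < p j) → HasSum p 1 → 0 ≤ p j ∧ p j ≤ 1 := by
    intro p hp hs
    exact ⟨(hp j).le, le_hasSum hs j fun i _ => (hp i).le⟩
  unfold lawR
  split_ifs with h
  · have hQ : (1 : ℝ) < 2 ^ (orderOf (2 : ZMod r) / 2) := one_lt_pow₀ one_lt_two (by omega)
    obtain ⟨g1, -, g2⟩ := h9 _ hQ
    exact key _ g1 g2
  · have hQ : (1 : ℝ) < 2 ^ (orderOf (2 : ZMod r)) := one_lt_pow₀ one_lt_two (by omega)
    obtain ⟨g1, -, g2⟩ := h10 _ hQ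
    exact key _ g1 g2

/-- the numerical part -/
theorem numer2 {n c e e' ν π S1 S2 N1 N2 : ℝ} (hn : 0 < n) (hc : 0 ≤ c) (he : e' ≤ e) (he0 : 0 ≤ e')
    (hπ0 : 0 ≤ π) (hπ1 : π ≤ 1) (h1 : |S1 - N1 / n| ≤ c * e') (h2 : |S2 - N2 / n| ≤ c * e')
    (h3 : |N1 - π * N2| ≤ n * (ν * c)) : |S1 - π * S2| ≤ (ν + 2 * e) * c := by
  have h6 : |N1 / n - π * (N2 / n)| ≤ ν * c := by
    have e1 : N1 / n - π * (N2 / n) = (N1 - π * N2) / n := by
      field_simp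
    rw [e1, abs_div, abs_of_pos hn, div_le_iff₀ hn]
    linarith
  have h7 : |π * (N2 / n - S2)| ≤ c * e' := by
    rw [abs_mul, abs_of_nonneg hπ0, abs_sub_comm]
    calc π * |S2 - N2 / n| ≤ 1 * |S2 - N2 / n| := mul_le_mul_of_nonneg_right hπ1 (abs_nonneg _)
      _ ≤ c * e' := by rw [one_mul]; exact h2
  have h8 : c * e' ≤ c * e := mul_le_mul_of_nonneg_left he hc
  have e2 : S1 - π * S2 = (S1 - N1 / n) + (N1 / n - π * (N2 / n)) + π * (N2 / n - S2) := by ring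
  rw [e2]
  refine (abs_add_three _ _ _).trans ?_
  linarith

theorem t_CLL (h1 : GR.S_TRF) (h2 : GJ.S_REA) (h2p : S_REF) (h3 : S_NIM) (h4 : S_KLR)
    (h5 : GR.S_PRD) (h6 : GR.S_XIR) (h7 : GR.S_SYP) (h8 : GR.S_UNR) (h9 : S_LWU) (h10 : S_LWN) :
    S_CLL := by
  intro n hn hn3 R hIsR τ ε hε
  have hxi : ∀ p ∈ R, IsRt p.1 (xi p.1 ^ p.2) := fun p hp =>
    rt_pow (h6 p.1 (hIsR.1 p hp).1 (hIsR.1 p hp).2.1) (hIsR.1 p hp).2.2
  have hpow : ∀ p ∈ R, (xi p.1 ^ p.2) ^ p.1 = 1 := fun p hp => pow_rt (hxi p hp)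
  obtain ⟨Cc, M, hKLR⟩ := h4 n hn hn3 {p : ℕ × ℕ // p ∈ R} (fun c => c.1.1)
    (fun c => Fr c.1.1) (fun c => xi c.1.1 ^ c.1.2) (fun c => hxi c.1 c.2)
    (fun c c' hcc => hIsR.2 c.1 c.2 c'.1 c'.2 fun h => hcc (Subtype.ext h))
    (fun c => τ c.1) ε hε
  refine ⟨Cc, M, ?_⟩
  intro k _ _ hk hm hq Δ hΔ a N m P0 mv hCe hN hR hy f hf
  set C : Finset (Fin m → k[X]) := Fintype.piFinset (Ce P0 mv) with hC
  obtain ⟨-, -, -, hprc, hpr, hcell⟩ := h5 k Δ hΔ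
  have hIn : ∀ T ∈ C, InC Δ P0 mv T := fun T hT => by
    obtain ⟨g1, g2, g3⟩ := hcell m P0 mv hCe T hT
    exact ⟨g1, g2, g3⟩
  have hN0 : 0 < N := hN.pos
  -- the two properties
  set Ψ2 : (Fin m → k[X]) → Bt N (dg P0) → Prop := fun T s =>
    fA Δ a P0 mv R f T (AA N (dg P0) mv (A0R T) s) with hΨ2
  set Ψ1 : (Fin m → k[X]) → Bt N (dg P0) → Prop := fun T s => Ψ2 T s ∧ ∀ p ∈ R,
    Module.finrank (Fr p.1) (KM N (dg P0) mv p.1 (A0R T) (FxR p.1 (xi p.1 ^ p.2) T)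
      (owR p.1 (xi p.1 ^ p.2) T) (xR a T) (xi p.1 ^ p.2) s) = τ p with hΨ1
  -- the first hypothesis of TRF
  have hA2 : ∀ T ∈ C, ∀ T' ∈ C, (∀ i, ty Δ a P0 R (T i) = ty Δ a P0 R (T' i)) →
      ∀ s, Ψ2 T s ↔ Ψ2 T' s := by
    intro T hT T' hT' hty s
    have hs := same_of_ty hty
    exact fA_congr hs fun i j _ => same_AA hm (hIn T hT) (hIn T' hT') hs s i j
  have hA1 : ∀ T ∈ C, ∀ T' ∈ C, (∀ i, ty Δ a P0 R (T i) = ty Δ a P0 R (T' i)) →
      ∀ s, Ψ1 T s ↔ Ψ1 T' s := by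
    intro T hT T' hT' hty s
    have hs := same_of_ty hty
    rw [hΨ1]
    refine and_congr (hA2 T hT T' hT' hty s) (forall_congr' fun r => forall_congr' fun hr => ?_)
    rw [same_KM h7 hk hm (hIn T hT) (hIn T' hT') hs hr
      (hpow r hr) (by have := (hxi r hr).lt; omega) s]
  -- the second hypothesis
  have hB2 : ∀ T s s', (∀ i j, i < j → i ∈ mv → j ∈ mv → s i j = s' i j) → (Ψ2 T s ↔ Ψ2 T s') := by
    intro T s s' h
    exact fA_congr Same.refl fun i j hij => AA_congr _ h (Ne.symm hij)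
  have hB1 : ∀ T s s', (∀ i j, i < j → i ∈ mv → j ∈ mv → s i j = s' i j) → (Ψ1 T s ↔ Ψ1 T s') := by
    intro T s s' h
    rw [hΨ1]
    refine and_congr (hB2 T s s' h) (forall_congr' fun r => forall_congr' fun hr => ?_)
    rw [KM_congr_s (s' := s') h]
  -- the values
  have hV2 : ∀ T ∈ C, (Ψ2 T (sT N P0 T) ↔ f (∏ i, T i)) := by
    intro T hT
    have hrea := (h2 k hk hm Δ hΔ n a N m P0 mv hN0 hCe T hT).1
    exact fA_iff hf hpr (hIn T hT) hrea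
  have hV1 : ∀ T ∈ C, (Ψ1 T (sT N P0 T) ↔ f (∏ i, T i) ∧ ∀ p ∈ R,
      Module.finrank (Fr p.1) (KD p.1 (xi p.1 ^ p.2) a (∏ i, T i)) = τ p) := by
    intro T hT
    have href := h2p k hk hm Δ hΔ n a N m P0 mv hN0 hCe T hT
    rw [hΨ1]
    refine and_congr (hV2 T hT) (forall_congr' fun p => forall_congr' fun hp => ?_)
    rw [href p.1 (Fr p.1) (xi p.1 ^ p.2) (hxi p hp) (hR p hp)]
  -- TRF
  have hT1 := h1 k hk hq Δ hΔ N m P0 mv hN0 hCe (TT n m Δ R) (fun _ => ty Δ a P0 R) Ψ1 hA1 hB1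
  have hT2 := h1 k hk hq Δ hΔ N m P0 mv hN0 hCe (TT n m Δ R) (fun _ => ty Δ a P0 R) Ψ2 hA2 hB2
  rw [← hC] at hT1 hT2
  -- nice elements
  have hlw : ∀ p ∈ R, 0 ≤ lawR p.1 (τ p) ∧ lawR p.1 (τ p) ≤ 1 := fun p hp =>
    lawR_mem h9 h10 p.1 (hIsR.1 p hp).1 (hIsR.1 p hp).2.1 _
  have hπ0 : 0 ≤ ∏ p ∈ R, lawR p.1 (τ p) := prod_nonneg fun p hp => (hlw p hp).1
  have hπ1 : ∏ p ∈ R, lawR p.1 (τ p) ≤ 1 :=
    prod_le_one (fun p hp => (hlw p hp).1) fun p hp => (hlw p hp).2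
  set π : ℝ := ∏ p ∈ R, lawR p.1 (τ p) with hπ
  set B : ℝ := (Fintype.card (Bt N (dg P0)) : ℝ) with hB
  have hB0 : 0 < B := by
    rw [hB]
    exact_mod_cast Fintype.card_pos
  have hle2 : ∀ T : Fin m → k[X], ((((univ : Finset (Bt N (dg P0))).filter fun s => Ψ2 T s).card : ℕ) : ℝ) ≤ B := by
    intro T
    rw [hB]
    exact_mod_cast card_le_univ _
  have hle1 : ∀ T : Fin m → k[X], ((((univ : Finset (Bt N (dg P0))).filter fun s => Ψ1 T s).card : ℕ) : ℝ) ≤ B := by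
    intro T
    rw [hB]
    exact_mod_cast card_le_univ _
  set Bad : ℕ × ℕ → (Fin m → k[X]) → Prop := fun p T =>
    ¬ NiceC (dg P0) mv Cc M p.1 (FxR p.1 (xi p.1 ^ p.2) T) (xR a T) with hBad
  have hpt : ∀ T ∈ C, |(((univ.filter fun s => Ψ1 T s).card : ℕ) : ℝ) -
      π * (((univ.filter fun s => Ψ2 T s).card : ℕ) : ℝ)| ≤
      B * (ε + ∑ p ∈ R, (if Bad p T then (1 : ℝ) else 0)) := by
    intro T hT
    have hsum0 : (0 : ℝ) ≤ ∑ p ∈ R, (if Bad p T then (1 : ℝ) else 0) :=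
      sum_nonneg fun p _ => by split_ifs <;> norm_num
    by_cases hnice : ∀ p ∈ R, ¬ Bad p T
    · have hrea := (h2 k hk hm Δ hΔ n a N m P0 mv hN0 hCe T hT).2
      have h9 := hKLR (Fin m) N (dg P0) mv hN (fun c => hR c.1 c.2)
        (A0R T) (fun c => FxR c.1.1 (xi c.1.1 ^ c.1.2) T) (fun c => owR c.1.1 (xi c.1.1 ^ c.1.2) T)
        (xR a T) hrea.1
        (fun c => (hrea.2 c.1.1 (Fr c.1.1) (xi c.1.1 ^ c.1.2) (hxi c.1 c.2) (hR c.1 c.2)).1)
        (fun c => not_not.1 (hnice c.1 c.2)) (fun A => fA Δ a P0 mv R f T A)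
      have e1 : ∏ c : {p : ℕ × ℕ // p ∈ R}, lawR c.1.1 (τ c.1) = π :=
        Finset.prod_coe_sort R fun p => lawR p.1 (τ p)
      rw [e1] at h9
      have e2 : ((univ : Finset (Bt N (dg P0))).filter fun s => Ψ1 T s) =
          (univ : Finset (Bt N (dg P0))).filter (fun s => fA Δ a P0 mv R f T (AA N (dg P0) mv (A0R T) s) ∧
      ∀ c : {p : ℕ × ℕ // p ∈ R}, Module.finrank (Fr c.1.1) (KM N (dg P0) mv c.1.1 (A0R T) (FxR c.1.1 (xi c.1.1 ^ c.1.2) T)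
        (owR c.1.1 (xi c.1.1 ^ c.1.2) T) (xR a T) (xi c.1.1 ^ c.1.2) s) = τ c.1) := by
        apply filter_congr
        intro s _
        rw [hΨ1]
        refine and_congr_right fun _ => ⟨fun h c => h c.1 c.2, fun h p hp => h ⟨p, hp⟩⟩
      rw [e2]
      refine h9.trans ?_
      calc ε * (((univ.filter fun s => Ψ2 T s).card : ℕ) : ℝ) ≤ ε * B :=
            mul_le_mul_of_nonneg_left (hle2 T) hε.le
        _ = B * ε := mul_comm _ _
        _ ≤ B * (ε + ∑ p ∈ R, (if Bad p T then (1 : ℝ) else 0)) :=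
            mul_le_mul_of_nonneg_left (by linarith) hB0.le
    · push Not at hnice
      obtain ⟨r, hr, hb⟩ := hnice
      have h9 : (1 : ℝ) ≤ ∑ p ∈ R, (if Bad p T then (1 : ℝ) else 0) := by
        have h10 : (if Bad r T then (1 : ℝ) else 0) ≤ ∑ p ∈ R, (if Bad p T then (1 : ℝ) else 0) :=
          single_le_sum (f := fun p => if Bad p T then (1 : ℝ) else 0)
            (fun r _ => by split_ifs <;> norm_num) hr
        rwa [if_pos hb] at h10
      have h11 : π * (((univ.filter fun s => Ψ2 T s).card : ℕ) : ℝ) ≤ B := by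
        calc π * (((univ.filter fun s => Ψ2 T s).card : ℕ) : ℝ)
            ≤ 1 * (((univ.filter fun s => Ψ2 T s).card : ℕ) : ℝ) :=
              mul_le_mul_of_nonneg_right hπ1 (Nat.cast_nonneg _)
          _ ≤ B := by rw [one_mul]; exact hle2 T
      have h12 : B * 1 ≤ B * (ε + ∑ p ∈ R, (if Bad p T then (1 : ℝ) else 0)) :=
        mul_le_mul_of_nonneg_left (by linarith) hB0.le
      have h13 : (0 : ℝ) ≤ (((univ.filter fun s => Ψ1 T s).card : ℕ) : ℝ) := Nat.cast_nonneg _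
      have h14 : (0 : ℝ) ≤ π * (((univ.filter fun s => Ψ2 T s).card : ℕ) : ℝ) :=
        mul_nonneg hπ0 (Nat.cast_nonneg _)
      have h15 := hle1 T
      rw [abs_le]
      constructor <;> linarith
  have hsum : |(∑ T ∈ C, (((univ.filter fun s => Ψ1 T s).card : ℕ) : ℝ)) -
      π * (∑ T ∈ C, (((univ.filter fun s => Ψ2 T s).card : ℕ) : ℝ))| ≤
      B * ((ε + ∑ p ∈ R, nnM Cc M n P0 mv p.1) * C.card) := by
    rw [mul_sum, ← sum_sub_distrib]
    refine (abs_sum_le_sum_abs _ _).trans ((sum_le_sum hpt).trans ?_)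
    rw [← mul_sum]
    apply mul_le_mul_of_nonneg_left _ hB0.le
    rw [sum_add_distrib, sum_const, nsmul_eq_mul, add_mul, mul_comm (C.card : ℝ) ε]
    apply add_le_add le_rfl
    rw [sum_comm, sum_mul]
    apply sum_le_sum
    intro p hp
    have h11 := h3 Cc M k hk hm hq Δ hΔ n (by omega) a m P0 mv hCe p.1 (Fr p.1) (xi p.1 ^ p.2)
      (hxi p hp) (hy p hp)
    rw [sum_boole]
    exact h11
  have hfin := numer2 (e := erT N P0 mv (2 ^ eT n Δ m R)) (ν := ε + ∑ p ∈ R, nnM Cc M n P0 mv p.1)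
    (π := π) hB0 (Nat.cast_nonneg C.card)
    (erT_mono N P0 mv (Nat.cast_nonneg (Fintype.card (TT n m Δ R)))
      (by exact_mod_cast card_TT hprc)) (erT_nonneg _ _ _ _) hπ0 hπ1 hT1 hT2
    (by convert hsum)
  have e1 : ∀ (inst : DecidablePred fun T => Ψ2 T (sT N P0 T)),
      @Finset.filter _ (fun T => Ψ2 T (sT N P0 T)) inst C = C.filter fun T => f (∏ i, T i) := by
    intro inst
    ext T
    rw [mem_filter, mem_filter]
    exact and_congr_right fun hT => hV2 T hT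
  have e2 : ∀ (inst : DecidablePred fun T => Ψ1 T (sT N P0 T)),
      @Finset.filter _ (fun T => Ψ1 T (sT N P0 T)) inst C =
      C.filter fun T => f (∏ i, T i) ∧ ∀ p ∈ R,
        Module.finrank (Fr p.1) (KD p.1 (xi p.1 ^ p.2) a (∏ i, T i)) = τ p := by
    intro inst
    ext T
    rw [mem_filter, mem_filter]
    exact and_congr_right fun hT => hV1 T hT
  rw [e1, e2] at hfin
  exact hfin

end Pool.Agent.Q261.GL
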